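import Mathlib
import Pool.Agent.V1122.Amalg.Fib

/-!
# Virtual fibering of amalgams over virtually cyclic virtual retracts
-/

namespace Pool.Agent.Results.MP_9d1793_al.VirtualFibering

open Function Pool.Agent.V1122.Amalg

/-- `H` is a virtual retract of `G`: some finite-index subgroup `K` of `G` containing `H` has a
homomorphism to `H` which restricts to the identity on `H`. -/
def VirtRetract {G : Type*} [Group G] (H : Subgroup G) : Prop :=
  ∃ (K : Subgroup G) (hHK : H ≤ K), K.FiniteIndex ∧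
    ∃ ρ : K →* H, ∀ x : H, ρ (Subgroup.inclusion hHK x) = x

/-- an infinite cyclic group embeds in `ℤ` -/
lemma exists_zeta {C : Type*} [Group C] [Infinite C] (hC : IsCyclic C) :
    ∃ ζ : C →* Multiplicative ℤ, Injective ζ := by
  obtain ⟨g, hg⟩ := hC.exists_generator
  let f : Multiplicative ℤ →* C := zpowersHom C g
  have hf : ∀ n : Multiplicative ℤ, f n = g ^ (Multiplicative.toAdd n) := fun n => rfl
  have hsurj : Surjective f := by
    intro x
    obtain ⟨n, hn⟩ := Subgroup.mem_zpowers_iff.mp (hg x)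
    exact ⟨Multiplicative.ofAdd n, hn⟩
  have hinj : Injective f := by
    rw [injective_iff_map_eq_one]
    intro n hn
    by_contra hne
    have h1 : Multiplicative.toAdd n ≠ 0 := fun h => hne (toAdd_eq_zero.mp h)
    have h2 : IsOfFinOrder g := isOfFinOrder_iff_zpow_eq_one.mpr ⟨_, h1, hn⟩
    have h3 : (Subgroup.zpowers g : Set C).Finite := h2.finite_zpowers
    have h4 : (Subgroup.zpowers g : Set C) = Set.univ := by
      ext x; exact ⟨fun _ => trivial, fun _ => hg x⟩
    rw [h4] at h3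
    exact Set.infinite_univ h3
  let e := MulEquiv.ofBijective f ⟨hinj, hsurj⟩
  exact ⟨e.symm.toMonoidHom, e.symm.injective⟩

/-- one side: a normal finite-index subgroup with a character extending `ζ` -/
lemma side {G₀ G : Type*} [Group G₀] [Group G] (φ : G₀ →* G) (hφ : Injective φ)
    (C : Subgroup G₀) [C.FiniteIndex] (ζ : C →* Multiplicative ℤ)
    (H : Subgroup G) (hH : H.FiniteIndex) (hvr : VirtRetract φ.range) :
    ∃ (N : Subgroup G) (_ : N.Normal) (_ : N.FiniteIndex) (_ : N ≤ H)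
      (hNC : ∀ x, φ x ∈ N → x ∈ C) (χ : N →* Multiplicative ℤ),
      ∀ (x : G₀) (hx : φ x ∈ N), χ ⟨φ x, hx⟩ = ζ ⟨x, hNC x hx⟩ := by
  obtain ⟨R, hR, hRf, ρ, hρ⟩ := hvr
  let ι := MonoidHom.ofInjective hφ
  let π : R →* G₀ := ι.symm.toMonoidHom.comp ρ
  have hπ : ∀ (x : G₀) (hx : φ x ∈ R), π ⟨φ x, hx⟩ = x := by
    intro x hx
    have h1 := hρ ⟨φ x, ⟨x, rfl⟩⟩
    have h2 : ρ ⟨φ x, hx⟩ = ⟨φ x, ⟨x, rfl⟩⟩ := h1
    change ι.symm (ρ ⟨φ x, hx⟩) = x
    rw [h2]
    exact ι.symm_apply_apply x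
  let D : Subgroup R := C.comap π
  have hD : D.FiniteIndex := comap_finiteIndex π C
  let D' : Subgroup G := D.map R.subtype
  have hD' : D'.FiniteIndex := by
    rw [Subgroup.finiteIndex_iff, Subgroup.index_map_subtype]
    exact mul_ne_zero (Subgroup.finiteIndex_iff.mp hD) (Subgroup.finiteIndex_iff.mp hRf)
  have hDH : (D' ⊓ H).FiniteIndex := inferInstance
  let N : Subgroup G := (D' ⊓ H).normalCore
  have hND : N ≤ D' := (Subgroup.normalCore_le _).trans inf_le_left
  have hNR : ∀ x ∈ N, ∃ h : x ∈ R, π ⟨x, h⟩ ∈ C := by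
    intro x hx
    obtain ⟨⟨y, hy⟩, hy', rfl⟩ := hND hx
    exact ⟨hy, hy'⟩
  refine ⟨N, inferInstance, inferInstance, (Subgroup.normalCore_le _).trans inf_le_right, ?_,
    ⟨⟨fun x => ζ ⟨π ⟨x, (hNR x x.2).choose⟩, (hNR x x.2).choose_spec⟩, ?_⟩, ?_⟩, ?_⟩
  · intro x hx
    obtain ⟨h1, h2⟩ := hNR _ hx
    rwa [hπ] at h2
  · have : (⟨π ⟨((1 : N) : G), (hNR _ (1 : N).2).choose⟩, (hNR _ (1 : N).2).choose_spec⟩ : C) =
        1 := by
      apply Subtype.ext
      change π (1 : R) = 1
      exact map_one π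
    change ζ _ = 1
    rw [this, map_one]
  · intro x y
    change ζ _ = ζ _ * ζ _
    rw [← map_mul]
    congr 1
    apply Subtype.ext
    exact map_mul π ⟨(x : G), _⟩ ⟨(y : G), _⟩
  · intro x hx
    change ζ _ = ζ _
    congr 1
    apply Subtype.ext
    exact hπ x _

/-- **Virtual fibering.**  Let `G` be the amalgam of `G_false` and `G_true` over an infinite
virtually cyclic group `G₀` which embeds as a virtual retract in both factors.  If both factors
are virtually fibered, then `G` is virtually fibered. -/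
theorem result {G₀ : Type*} {G : Bool → Type*} [Group G₀] [∀ i, Group (G i)]
    (φ : ∀ i, G₀ →* G i) (hφ : ∀ i, Injective (φ i)) (h₀ : VirtCyclic G₀) (hinf : Infinite G₀)
    (hvf : ∀ i, VirtFibered (G i)) (hvr : ∀ i, VirtRetract (φ i).range) :
    VirtFibered (Monoid.PushoutI φ) := by
  obtain ⟨C, hC, hCc⟩ := h₀
  have hCinf : Infinite C := by
    by_contra hcon
    rw [not_infinite_iff_finite] at hcon
    have h1 : Finite (G₀ ⧸ C) := inferInstance
    have h2 : Finite G₀ := Finite.of_equiv _ (Subgroup.groupEquivQuotientProdSubgroup (s := C)).symm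
    exact not_finite G₀
  obtain ⟨ζ, hζ⟩ := exists_zeta hCc
  choose H hH hHfib using hvf
  choose χH hχH1 hχHfg using hHfib
  choose N hNn hNf hNH hNC χ hχ using fun i => side (φ i) (hφ i) C ζ (H i) (hH i) (hvr i)
  let M : Bool → Subgroup G₀ := fun i => (N i).comap (φ i)
  have hMf : ∀ i, (M i).FiniteIndex := fun i => comap_finiteIndex (φ i) (N i)
  have hMC : ∀ i, M i ≤ C := fun i x hx => hNC i x hx
  have hMc : ∀ i, IsCyclic (M i) := fun i =>
    isCyclic_of_injective (Subgroup.inclusion (hMC i)) (Subgroup.inclusion_injective _)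
  have hgen : ∀ i, ∃ z : G₀, z ∈ M i ∧ ∀ x ∈ M i, ∃ n : ℤ, x = z ^ n := by
    intro i
    obtain ⟨z, hz⟩ := (hMc i).exists_generator
    refine ⟨z, z.2, fun x hx => ?_⟩
    obtain ⟨n, hn⟩ := Subgroup.mem_zpowers_iff.mp (hz ⟨x, hx⟩)
    exact ⟨n, by rw [← Subgroup.coe_zpow, hn]⟩
  choose z hzM hz using hgen
  let L : Subgroup G₀ := M false ⊓ M true
  have hLf : L.FiniteIndex := by
    have := hMf false
    have := hMf true
    exact inferInstance
  obtain ⟨l, hlL, hl⟩ : ∃ l : G₀, l ∈ L ∧ ∀ x ∈ L, ∃ n : ℤ, x = l ^ n := by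
    have hc : IsCyclic L := by
      have := hMc false
      exact isCyclic_of_injective (Subgroup.inclusion (inf_le_left : L ≤ M false))
        (Subgroup.inclusion_injective _)
    obtain ⟨z, hz⟩ := hc.exists_generator
    refine ⟨z, z.2, fun x hx => ?_⟩
    obtain ⟨n, hn⟩ := Subgroup.mem_zpowers_iff.mp (hz ⟨x, hx⟩)
    exact ⟨n, by rw [← Subgroup.coe_zpow, hn]⟩
  have hl1 : l ≠ 1 := by
    rintro rfl
    have hbot : L = ⊥ := by
      rw [eq_bot_iff]
      intro x hx
      obtain ⟨n, hn⟩ := hl x hx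
      rw [Subgroup.mem_bot, hn, one_zpow]
    rw [hbot, Subgroup.finiteIndex_iff, Subgroup.index_bot] at hLf
    exact hLf (Nat.card_eq_zero_of_infinite)
  have hLM : ∀ i, L ≤ M i := fun i => match i with
    | false => inf_le_left
    | true => inf_le_right
  choose s hs using fun i => hz i l (hLM i hlL)
  have hs0 : ∀ i, s i ≠ 0 := by
    intro i h
    apply hl1
    rw [hs i, h, zpow_zero]
  -- the exact subgroups
  have hK : ∀ i, ∃ K : Subgroup (G i), K.Normal ∧ K.FiniteIndex ∧ K ≤ N i ∧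
      ∀ n : ℤ, ((φ i (z i)) ^ n ∈ K ↔ s i ∣ n) := by
    intro i
    have := hNn i
    have := hNf i
    have hz1 : χ i ⟨φ i (z i), hzM i⟩ ≠ 1 := by
      intro h
      rw [hχ i (z i) (hzM i)] at h
      have h5 := hζ (h.trans (map_one _).symm)
      have h6 : z i = 1 := congrArg Subtype.val h5
      apply hl1
      rw [hs i, h6, one_zpow]
    exact exists_exact (N i) (χ i) ⟨φ i (z i), hzM i⟩ hz1 (s i) (hs0 i)
  choose K hKn hKf hKN hKz using hK
  have hL : ∀ i, ∀ x : G₀, x ∈ L ↔ φ i x ∈ K i := by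
    intro i x
    constructor
    · intro hx
      obtain ⟨n, rfl⟩ := hl x hx
      rw [hs i, ← zpow_mul, map_zpow]
      exact (hKz i _).mpr ⟨n, rfl⟩
    · intro hx
      have hxM : x ∈ M i := hKN i hx
      obtain ⟨n, rfl⟩ := hz i x hxM
      rw [map_zpow, hKz i] at hx
      obtain ⟨t, rfl⟩ := hx
      rw [zpow_mul, ← hs i]
      exact zpow_mem hlL t
  let ℓ : L := ⟨l, hlL⟩
  have hℓ : ∀ x : L, ∃ n : ℤ, x = ℓ ^ n := by
    intro x
    obtain ⟨n, hn⟩ := hl x x.2
    exact ⟨n, Subtype.ext (by rw [Subgroup.coe_zpow]; exact hn)⟩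
  -- the fibred characters
  have hθ : ∀ i, ∃ θ : K i →* Multiplicative ℤ, θ ≠ 1 ∧ θ.ker.FG ∧
      ∀ j : J (φ i) (K i), θ (conj (φ i) (K i) L (hL i) j ℓ) ≠ 1 := by
    intro i
    have hKH : K i ≤ H i := (hKN i).trans (hNH i)
    have hr : (Subgroup.inclusion hKH).range.FiniteIndex := by
      have h1 : (Subgroup.inclusion hKH).range = (K i).subgroupOf (H i) := by
        rw [Subgroup.inclusion_range]
      rw [h1]
      infer_instance
    obtain ⟨h1, h2⟩ := restrict_fibred (Subgroup.inclusion hKH)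
      (Subgroup.inclusion_injective _) hr (χH i) (hχH1 i) (hχHfg i)
    have hfinJ : Finite (J (φ i) (K i)) := inferInstance
    have hNn' := hNn i
    let ψ : J (φ i) (K i) → (K i →* Multiplicative ℤ) := fun j =>
      { toFun := fun x => χ i ⟨rr (φ i) (K i) j * x * (rr (φ i) (K i) j)⁻¹,
          hNn'.conj_mem _ (hKN i x.2) _⟩
        map_one' := by
          have e : (⟨rr (φ i) (K i) j * ((1 : K i) : G i) * (rr (φ i) (K i) j)⁻¹,
              hNn'.conj_mem _ (hKN i (1 : K i).2) _⟩ : N i) = 1 := by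
            apply Subtype.ext
            simp
          rw [e, map_one]
        map_mul' := by
          intro x y
          rw [← map_mul]
          congr 1
          apply Subtype.ext
          simp }
    refine exists_theta _ h1 h2 (fun j => conj (φ i) (K i) L (hL i) j ℓ) ψ ?_
    intro j h
    have h3 : χ i ⟨φ i l, hKN i ((hL i l).mp hlL)⟩ = 1 := by
      rw [← h]
      change _ = χ i _
      congr 1
      apply Subtype.ext
      change φ i l = rr (φ i) (K i) j * ((rr (φ i) (K i) j)⁻¹ * φ i l * rr (φ i) (K i) j) *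
        (rr (φ i) (K i) j)⁻¹
      group
    rw [hχ i l] at h3
    have h5 := hζ (h3.trans (map_one _).symm)
    exact hl1 (congrArg Subtype.val h5)
  choose θ hθ1 hθfg hθℓ using hθ
  exact concl_fib φ K L hL ℓ hℓ θ hθ1 hθfg hθℓ

end Pool.Agent.Results.MP_9d1793_al.VirtualFibering
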